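import Pool.Agent.KS6_70.EC.GlueX

/-!
Entropic separation of classical and quantum causal structures with five observed nodes, and of
all causal structures which contain this one as an ancestral part.

`CausalStructure`, `ClassicalModel`, `QuantumModel`, `entropyVector`, `classicalEntropySet` and
`quantumEntropySet` are the definitions of the library module `V11263.Causal` (the classical and
quantum models of a directed acyclic graph with observed and unobserved nodes, the vectors of the
Shannon entropies of all nonempty sets of observed variables, and the sets of the entropy vectors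
of all classical and all quantum models).

`K5` is the causal structure with the observed nodes `Y, Z, A, B, C` (numbered from `0` to `4`), the
unobserved nodes `S, T` and the edges `Y → Z`, `Y → B`, `Z → C`, `S → Z`, `S → A`, `T → A`, `T → B`,
`T → C`. An `Extension` of a causal structure `C` adds finite sets of observed and unobserved nodes
and arbitrary edges into the new nodes (keeping the graph acyclic); the parents of the old nodes do
not change.
-/

set_option autoImplicit false

namespace Pool.Agent.Results.MP_4af25b_mp.FiveNodes

open Pool.Agent.V11263.Causal Pool.Agent.KS6_70.EC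

/-- The closures of the sets of the classical and of the quantum entropy vectors of `C` are
different, the former is not convex, and some quantum entropy vector is the midpoint of two
classical entropy vectors, but not a limit of classical entropy vectors. -/
def Separated (C : CausalStructure) : Prop :=
  closure (classicalEntropySet C) ≠ closure (quantumEntropySet C) ∧
  ¬ Convex ℝ (closure (classicalEntropySet C)) ∧
  ∃ v ∈ classicalEntropySet C, ∃ w ∈ classicalEntropySet C,
    (1 / 2 : ℝ) • v + (1 / 2 : ℝ) • w ∈ quantumEntropySet C ∧
    (1 / 2 : ℝ) • v + (1 / 2 : ℝ) • w ∉ closure (classicalEntropySet C)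

theorem separated_of {C : CausalStructure}
    (h : ∃ v ∈ classicalEntropySet C, ∃ w ∈ classicalEntropySet C,
      (1 / 2 : ℝ) • v + (1 / 2 : ℝ) • w ∈ quantumEntropySet C ∧
      (1 / 2 : ℝ) • v + (1 / 2 : ℝ) • w ∉ closure (classicalEntropySet C)) : Separated C := by
  refine ⟨?_, ?_, h⟩
  · obtain ⟨v, _, w, _, h1, h2⟩ := h
    intro he
    exact h2 (he ▸ subset_closure h1)
  · obtain ⟨v, hv, w, hw, _, h2⟩ := h
    intro hc
    exact h2 (hc (subset_closure hv) (subset_closure hw) (by norm_num) (by norm_num)
      (by norm_num))

/-- the extension of `K5` by isolated nodes -/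
def isolated (n m : ℕ) : Extension K5 where
  RO := Fin n
  RU := Fin m
  edge v w := ∃ v' w' : Fin 5 ⊕ Fin 2, v = Sum.map Sum.inl Sum.inl v' ∧
    w = Sum.map Sum.inl Sum.inl w' ∧ edge5 v' w' = true
  acyclic := by
    refine ⟨Sum.elim (Sum.elim (fun o => rank5 (Sum.inl o)) fun _ => 0)
      (Sum.elim (fun u => rank5 (Sum.inr u)) fun _ => 0), ?_⟩
    rintro _ _ ⟨v', w', rfl, rfl, h⟩
    have h1 := rank5_lt v' w' h
    rcases v' with v' | v' <;> rcases w' with w' | w' <;> exact h1
  parents v w := by
    have hinj : Function.Injective (Sum.map Sum.inl Sum.inl :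
        Fin 5 ⊕ Fin 2 → (Fin 5 ⊕ Fin n) ⊕ (Fin 2 ⊕ Fin m)) :=
      Sum.map_injective.2 ⟨Sum.inl_injective, Sum.inl_injective⟩
    constructor
    · rintro ⟨v', w', rfl, h2, h3⟩
      have h4 : w = w' := hinj h2
      subst h4
      exact ⟨v', rfl, h3⟩
    · rintro ⟨v', rfl, h⟩
      exact ⟨v', w, rfl, rfl, h⟩

/-- `K5`, which has only five observed and two unobserved nodes, separates classical and quantum
entropy vectors, and so does every causal structure which is obtained from `K5` by adding finitely
many nodes and edges into the new nodes; these have any numbers `n ≥ 5` of observed and `m ≥ 2` of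
unobserved nodes. -/
theorem result :
    Fintype.card K5.O = 5 ∧ Fintype.card K5.U = 2 ∧ Separated K5 ∧
    (∀ X : Extension K5, Separated X.toCS) ∧
    ∀ n m : ℕ, 5 ≤ n → 2 ≤ m → ∃ X : Extension K5,
      Fintype.card X.toCS.O = n ∧ Fintype.card X.toCS.U = m ∧ Separated X.toCS := by
  refine ⟨Fintype.card_fin 5, Fintype.card_fin 2, ?_, fun X => separated_of (main_ext X), ?_⟩
  · refine separated_of ⟨vf f0, v0_mem, vf f1, v1_mem, ?_, ?_⟩
    · rw [← vQ_mid]
      exact vQ_mem
    · rw [← vQ_mid]
      exact vQ_not_mem
  · intro n m hn hm
    refine ⟨isolated (n - 5) (m - 2), ?_, ?_, separated_of (main_ext _)⟩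
    · have h : Fintype.card (Fin 5 ⊕ Fin (n - 5)) = 5 + (n - 5) := by
        rw [Fintype.card_sum, Fintype.card_fin, Fintype.card_fin]
      exact h.trans (by omega)
    · have h : Fintype.card (Fin 2 ⊕ Fin (m - 2)) = 2 + (m - 2) := by
        rw [Fintype.card_sum, Fintype.card_fin, Fintype.card_fin]
      exact h.trans (by omega)

end Pool.Agent.Results.MP_4af25b_mp.FiveNodes
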